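import Pool.Agent.L7h17.TR.Stm
import Pool.Agent.L7h60.OC.Nsp

set_option autoImplicit false

/-!
# Project TR: part CEN (the centre is not on the curve)
-/

namespace Pool.Agent.L7h88.TR

open MvPolynomial Pool.Agent.L7h17 Pool.Agent.L7h17.TR

theorem dir_deriv (F : MvPolynomial (Fin 3) ℝ) (a b : ℝ) :
    HasDerivAt (fun s : ℝ => eval ![s * a, s * b, 1] F)
      (eval ![0, 0, 1] (pderiv 0 F) * a + eval ![0, 0, 1] (pderiv 1 F) * b) 0 := by
  have h := Pool.Agent.L7h60.OC.chain_rule F (γ := fun s : ℝ => ![s * a, s * b, 1])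
    (γ' := ![a, b, 0]) (x := 0) (by
      intro i
      fin_cases i
      · simpa using (hasDerivAt_id (0 : ℝ)).mul_const a
      · simpa using (hasDerivAt_id (0 : ℝ)).mul_const b
      · exact hasDerivAt_const (0 : ℝ) (1 : ℝ))
  refine h.congr_deriv ?_
  simp [Fin.sum_univ_three]

theorem s_CEN : S_CEN := by
  intro F θ m hF hns hang hm hχ h0
  obtain ⟨χ, hχ⟩ := hχ
  obtain ⟨g0, hg0⟩ : ∃ g0, g0 = eval ![0, 0, 1] (pderiv 0 F) := ⟨_, rfl⟩
  obtain ⟨g1, hg1⟩ : ∃ g1, g1 = eval ![0, 0, 1] (pderiv 1 F) := ⟨_, rfl⟩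
  have hrot : ∀ s a b : ℝ, (OC.Rot θ).mulVec ![s * a, s * b, 1] =
      ![s * (Real.cos θ * a - Real.sin θ * b), s * (Real.sin θ * a + Real.cos θ * b), 1] := by
    intro s a b
    ext i
    fin_cases i
    · simp [OC.Rot, Matrix.mulVec, dotProduct, Fin.sum_univ_three]; ring
    · simp [OC.Rot, Matrix.mulVec, dotProduct, Fin.sum_univ_three]; ring
    · simp [OC.Rot, Matrix.mulVec, dotProduct, Fin.sum_univ_three]
  have key : ∀ a b : ℝ, g0 * (Real.cos θ * a - Real.sin θ * b) +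
      g1 * (Real.sin θ * a + Real.cos θ * b) = χ * (g0 * a + g1 * b) := by
    intro a b
    have h1 := dir_deriv F (Real.cos θ * a - Real.sin θ * b) (Real.sin θ * a + Real.cos θ * b)
    have h2 := (dir_deriv F a b).const_mul χ
    rw [← hg0, ← hg1] at h1 h2
    have e : (fun s : ℝ => eval ![s * (Real.cos θ * a - Real.sin θ * b),
        s * (Real.sin θ * a + Real.cos θ * b), 1] F) =
        fun s : ℝ => χ * eval ![s * a, s * b, 1] F := by
      funext s
      rw [← hrot, hχ]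
    rw [e] at h1
    exact h1.unique h2
  have k1 := key 1 0
  have k2 := key 0 1
  have hsin : Real.sin θ ≠ 0 := by
    intro hs
    refine hang.2.2 2 (by norm_num) (by omega) ?_
    have e1 : ((2 : ℕ) : ℂ) * (θ : ℂ) * Complex.I = ((2 * θ : ℝ) : ℂ) * Complex.I := by
      push_cast; ring
    rw [e1, Complex.exp_mul_I, ← Complex.ofReal_cos, ← Complex.ofReal_sin, Real.cos_two_mul',
      Real.sin_two_mul, hs]
    have hc : Real.cos θ ^ 2 = 1 := by
      have := Real.sin_sq_add_cos_sq θ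
      rw [hs] at this
      linarith
    rw [hc]
    norm_num
  have hD : (Real.cos θ - χ) ^ 2 + Real.sin θ ^ 2 ≠ 0 := by positivity
  have z0 : g0 = 0 := by
    have h : ((Real.cos θ - χ) ^ 2 + Real.sin θ ^ 2) * g0 = 0 := by
      linear_combination (Real.cos θ - χ) * k1 - Real.sin θ * k2
    exact (mul_eq_zero.1 h).resolve_left hD
  have z1 : g1 = 0 := by
    have h : ((Real.cos θ - χ) ^ 2 + Real.sin θ ^ 2) * g1 = 0 := by
      linear_combination Real.sin θ * k1 + (Real.cos θ - χ) * k2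
    exact (mul_eq_zero.1 h).resolve_left hD
  have z2 : eval ![0, 0, 1] (pderiv 2 F) = 0 := by
    have hE := congrArg (eval (![0, 0, 1] : Fin 3 → ℝ)) hF.sum_X_mul_pderiv
    rw [map_nsmul, h0, smul_zero, Fin.sum_univ_three] at hE
    simp only [map_add, map_mul, eval_X] at hE
    simpa using hE
  rw [hg0] at z0
  rw [hg1] at z1
  set v : Fin 3 → ℝ := ![0, 0, 1] with hv
  have hae : ∀ P : MvPolynomial (Fin 3) ℝ, aeval (fun i => ((v i : ℝ) : ℂ)) P =
      ((eval v P : ℝ) : ℂ) := by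
    intro P
    have := MvPolynomial.aeval_algebraMap_apply (R := ℝ) (A := ℝ) (B := ℂ) v P
    rw [MvPolynomial.aeval_eq_eval] at this
    exact this
  refine hns (fun i => ((v i : ℝ) : ℂ)) ?_ ⟨?_, ?_⟩
  · intro h
    have h3 : (((v 2 : ℝ)) : ℂ) = 0 := congrFun h 2
    have h4 : v 2 = 1 := rfl
    rw [h4] at h3
    norm_num at h3
  · rw [hae, h0]; rfl
  · intro i
    rw [hae]
    fin_cases i
    · change ((eval v (pderiv 0 F) : ℝ) : ℂ) = 0
      rw [z0]; rfl
    · change ((eval v (pderiv 1 F) : ℝ) : ℂ) = 0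
      rw [z1]; rfl
    · change ((eval v (pderiv 2 F) : ℝ) : ℂ) = 0
      rw [z2]; rfl

end Pool.Agent.L7h88.TR
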